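import Mathlib

/-!
A regular graph that is not vertex-transitive and is isomorphic to the first and second
neighbourhood of every vertex of some graph.
-/

namespace Pool.Agent.Results.MP_824d98_co.NotTransitive

open Finset

/-- The `k`-neighbourhood `N_k(x, G)`: the subgraph induced by the vertices whose distance from
`x` is exactly `k` (used for `k ≥ 1` only). -/
def nbhd {V : Type*} (G : SimpleGraph V) (k : ℕ) (x : V) : SimpleGraph {y : V // G.dist x y = k} :=
  G.comap Subtype.val

/-- `H` is `(1,2)`-realizable: some (finite, nonempty) graph `G` has both `N_1(x, G)` and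
`N_2(x, G)` isomorphic to `H` for every vertex `x`. -/
def Realizable {W : Type*} (H : SimpleGraph W) : Prop :=
  ∃ (V : Type) (_ : Fintype V) (_ : Nonempty V) (G : SimpleGraph V), ∀ x : V,
    Nonempty (nbhd G 1 x ≃g H) ∧ Nonempty (nbhd G 2 x ≃g H)

/-- `H` is vertex-transitive. -/
def VertexTransitive {W : Type*} (H : SimpleGraph W) : Prop :=
  ∀ u v : W, ∃ f : H ≃g H, f u = v

/-- The group. -/
abbrev A : Type := ZMod 6 × ZMod 6 × ZMod 2

/-- The connection set. -/
def S (x : A) : Prop :=
  (x.2.2 = 0 ∧ x ≠ 0 ∧ (x.1 = 0 ∨ x.2.1 = 0 ∨ x.1 = x.2.1)) ∨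
    (x.2.2 ≠ 0 ∧ ¬ (x.1 = 0 ∨ x.2.1 = 0 ∨ x.1 = x.2.1))

instance : DecidablePred S := fun x => by unfold S; infer_instance

theorem S_neg : ∀ x : A, S x → S (-x) := by decide +kernel

theorem S_zero : ¬ S 0 := by decide +kernel

/-- The Cayley graph. -/
def G : SimpleGraph A where
  Adj x y := S (y - x)
  symm := by
    constructor
    intro x y h
    have := S_neg _ h
    rwa [neg_sub] at this
  loopless := by
    constructor
    intro x h
    rw [sub_self] at h
    exact S_zero h

instance : DecidableRel G.Adj := fun x y => inferInstanceAs (Decidable (S (y - x)))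

/-- The antipode of the identity. -/
def t : A := (0, 0, 1)

theorem t_add_t : t + t = 0 := by decide +kernel

/-- The graph induced by the connection set. -/
def H : SimpleGraph {x : A // S x} := G.comap Subtype.val

instance : DecidableRel H.Adj := fun x y => inferInstanceAs (Decidable (S (y.1 - x.1)))

theorem dist_one (x y : A) : G.dist x y = 1 ↔ S (y - x) := by
  rw [SimpleGraph.dist_eq_one_iff_adj]
  rfl

theorem common : ∀ z : A, (z ≠ 0 ∧ ¬ S z ∧ ∃ w : A, S w ∧ S (z - w)) ↔ S (z - t) := by
  decide +kernel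

theorem dist_two (x y : A) : G.dist x y = 2 ↔ S (y - x - t) := by
  rw [← common]
  constructor
  · intro h
    have hr : G.Reachable x y := by
      by_contra hcon
      rw [SimpleGraph.dist_eq_zero_of_not_reachable hcon] at h
      omega
    obtain ⟨p, hp⟩ := hr.exists_walk_length_eq_dist
    refine ⟨?_, ?_, ?_⟩
    · intro h0
      rw [sub_eq_zero] at h0
      subst h0
      rw [SimpleGraph.dist_self] at h
      omega
    · intro hS
      rw [← dist_one] at hS
      omega
    · rw [h] at hp
      cases p with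
      | nil => simp at hp
      | cons h1 p =>
        cases p with
        | nil => simp at hp
        | cons h2 p =>
          cases p with
          | nil =>
            rename_i w
            refine ⟨w - x, h1, ?_⟩
            have h3 : S (y - w) := h2
            rwa [show y - x - (w - x) = y - w by abel]
          | cons h3 p => simp at hp
  · rintro ⟨h1, h2, w, hw1, hw2⟩
    have ha : G.Adj x (x + w) := by
      change S (x + w - x)
      rwa [add_sub_cancel_left]
    have hb : G.Adj (x + w) y := by
      change S (y - (x + w))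
      rwa [show y - (x + w) = y - x - w by abel]
    have h3 : G.dist x y ≤ 2 := SimpleGraph.dist_le (.cons ha (.cons hb .nil))
    have h4 : G.dist x y ≠ 0 := by
      have hr : G.Reachable x y := ⟨.cons ha (.cons hb .nil)⟩
      rw [Ne, hr.dist_eq_zero_iff]
      intro h
      apply h1
      rw [h, sub_self]
    have h5 : G.dist x y ≠ 1 := by
      rw [Ne, dist_one]
      exact h2
    omega

/-- The first neighbourhoods. -/
def iso1 (x : A) : nbhd G 1 x ≃g H where
  toFun y := ⟨y.1 - x, (dist_one x y.1).1 y.2⟩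
  invFun z := ⟨z.1 + x, (dist_one x (z.1 + x)).2 (by rw [add_sub_cancel_right]; exact z.2)⟩
  left_inv y := by
    apply Subtype.ext
    simp
  right_inv z := by
    apply Subtype.ext
    simp
  map_rel_iff' := by
    intro y z
    change S (z.1 - x - (y.1 - x)) ↔ S (z.1 - y.1)
    rw [sub_sub_sub_cancel_right]

/-- The second neighbourhoods. -/
def iso2 (x : A) : nbhd G 2 x ≃g H where
  toFun y := ⟨y.1 - x - t, (dist_two x y.1).1 y.2⟩
  invFun z := ⟨z.1 + t + x, (dist_two x (z.1 + t + x)).2 (by
    rw [add_sub_cancel_right, add_sub_cancel_right]; exact z.2)⟩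
  left_inv y := by
    apply Subtype.ext
    simp
  right_inv z := by
    apply Subtype.ext
    simp
  map_rel_iff' := by
    intro y z
    change S (z.1 - x - t - (y.1 - x - t)) ↔ S (z.1 - y.1)
    rw [sub_sub_sub_cancel_right, sub_sub_sub_cancel_right]

theorem regular : ∀ y : {x : A // S x}, (univ.filter (fun z => H.Adj y z)).card = 18 := by
  decide +kernel

/-- `v` lies in a clique with six vertices. -/
def Six {W : Type*} (H : SimpleGraph W) (v : W) : Prop :=
  ∃ a, H.Adj v a ∧ ∃ b, H.Adj v b ∧ H.Adj a b ∧ ∃ c, H.Adj v c ∧ H.Adj a c ∧ H.Adj b c ∧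
    ∃ d, H.Adj v d ∧ H.Adj a d ∧ H.Adj b d ∧ H.Adj c d ∧
    ∃ e, H.Adj v e ∧ H.Adj a e ∧ H.Adj b e ∧ H.Adj c e ∧ H.Adj d e

theorem Six.map {W : Type*} {H : SimpleGraph W} (f : H ≃g H) {v : W} (h : Six H v) :
    Six H (f v) := by
  obtain ⟨a, h1, b, h2, h3, c, h4, h5, h6, d, h7, h8, h9, h10, e, h11, h12, h13, h14, h15⟩ := h
  refine ⟨f a, f.map_adj_iff.2 h1, f b, f.map_adj_iff.2 h2, f.map_adj_iff.2 h3, f c,
    f.map_adj_iff.2 h4, f.map_adj_iff.2 h5, f.map_adj_iff.2 h6, f d, f.map_adj_iff.2 h7,
    f.map_adj_iff.2 h8, f.map_adj_iff.2 h9, f.map_adj_iff.2 h10, f e, f.map_adj_iff.2 h11,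
    f.map_adj_iff.2 h12, f.map_adj_iff.2 h13, f.map_adj_iff.2 h14, f.map_adj_iff.2 h15⟩

theorem not_six : ¬ Six H ⟨(0, 1, 0), by decide +kernel⟩ := by
  unfold Six
  decide +kernel

theorem six : Six H ⟨(0, 3, 0), by decide +kernel⟩ := by
  refine ⟨⟨(3, 0, 0), by decide +kernel⟩, by decide +kernel, ⟨(3, 3, 0), by decide +kernel⟩,
    by decide +kernel, by decide +kernel, ⟨(1, 2, 1), by decide +kernel⟩, by decide +kernel,
    by decide +kernel, by decide +kernel, ⟨(1, 5, 1), by decide +kernel⟩, by decide +kernel,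
    by decide +kernel, by decide +kernel, by decide +kernel, ⟨(4, 2, 1), by decide +kernel⟩,
    by decide +kernel, by decide +kernel, by decide +kernel, by decide +kernel,
    by decide +kernel⟩

/-- **Main theorem.** There is a regular `(1,2)`-realizable graph that is not
vertex-transitive. -/
theorem result : ∃ (W : Type) (_ : Fintype W) (H : SimpleGraph W) (_ : DecidableRel H.Adj)
    (d : ℕ), H.IsRegularOfDegree d ∧ Realizable H ∧ ¬ VertexTransitive H := by
  refine ⟨{x : A // S x}, inferInstance, H, inferInstance, 18, ?_, ?_, ?_⟩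
  · intro v
    rw [SimpleGraph.degree, SimpleGraph.neighborFinset_eq_filter]
    exact regular v
  · exact ⟨A, inferInstance, inferInstance, G, fun x => ⟨⟨iso1 x⟩, ⟨iso2 x⟩⟩⟩
  · intro h
    obtain ⟨f, hf⟩ := h ⟨(0, 3, 0), by decide +kernel⟩ ⟨(0, 1, 0), by decide +kernel⟩
    have h1 := six.map f
    rw [hf] at h1
    exact not_six h1

end Pool.Agent.Results.MP_824d98_co.NotTransitive
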